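import Pool.Agent.SGY.Stmts
import Pool.Agent.Helper20_SGE.Chd

/-!
# Squad SGY, row CHL: a contour vertex without chords below a chord (helper7)
-/

set_option autoImplicit false

noncomputable section

namespace Pool.Agent.SGY.H7

open Pool.Agent.SGE Pool.Agent.SGP

variable {V : Type}

/-- a vertex without chords below a chord, with its position -/
theorem below [Fintype V] {a b : V} {C : List V} {E : V → V → Prop}
    {F : V → V → V → Prop} (N : NT a b C E F) (k : ℕ) :
    ∀ {P M Q : List V} {u w : V}, C = P ++ u :: (M ++ w :: Q) → M ≠ [] → E u w → M.length ≤ k →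
      ∃ (M₁ : List V) (p v q : V) (M₂ : List V), u :: (M ++ [w]) = M₁ ++ p :: v :: q :: M₂ ∧
        (∀ x ∈ C, E v x → x = p ∨ x = q) := by
  induction k with
  | zero =>
    intro P M Q u w _ hM _ hk
    exact absurd (List.length_eq_zero_iff.1 (Nat.le_zero.1 hk)) hM
  | succ k ih =>
    intro P M Q u w hC hM huw hk
    obtain ⟨m, M', rfl⟩ := List.exists_cons_of_ne_nil hM
    obtain ⟨n, rest, hn⟩ : ∃ n rest, M' ++ [w] = n :: rest := by
      cases M' with
      | nil => exact ⟨w, [], rfl⟩
      | cons n M' => exact ⟨n, M' ++ [w], rfl⟩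
    have h2 : u :: (m :: M' ++ [w]) = u :: m :: n :: rest := by
      rw [List.cons_append, hn]
    have hC2 : C = P ++ u :: m :: n :: (rest ++ Q) := by
      have h1 : P ++ u :: (m :: M' ++ w :: Q) = P ++ u :: m :: ((M' ++ [w]) ++ Q) := by simp
      rw [hC, h1, hn]
      simp
    by_cases hch : ∀ x ∈ rest, ¬ E m x
    · refine ⟨[], u, m, n, rest, h2, ?_⟩
      intro x hx hmx
      have N' := N
      rw [hC] at N' hx
      have h1 := Pool.Agent.SGE.H20.chd N' (by simp) huw m (by simp) x hx hmx
      rw [h2] at h1
      rcases List.mem_cons.1 h1 with h | h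
      · exact Or.inl h
      · rcases List.mem_cons.1 h with h | h
        · rw [h] at hmx
          exact absurd hmx (N.irr m)
        · rcases List.mem_cons.1 h with h | h
          · exact Or.inr h
          · exact absurd hmx (hch x h)
    · push Not at hch
      obtain ⟨t, ht, hmt⟩ := hch
      obtain ⟨R1, R2, rfl⟩ := List.append_of_mem ht
      have hlen : (n :: R1).length ≤ k := by
        have h1 := congrArg List.length hn
        simp at h1 hk ⊢
        omega
      obtain ⟨M₁, p, v, q, M₂, h1, h3⟩ := ih (P := P ++ [u]) (M := n :: R1) (Q := R2 ++ Q)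
        (u := m) (w := t) (by rw [hC2]; simp) (by simp) hmt hlen
      refine ⟨u :: M₁, p, v, q, M₂ ++ R2, ?_, h3⟩
      have h4 : u :: m :: n :: (R1 ++ t :: R2) = u :: ((m :: (n :: R1 ++ [t])) ++ R2) := by simp
      rw [h2, h4, h1]
      simp

theorem chl : ChlStmt := by
  intro V _ a b P M Q u w E F N hM huw
  exact below N M.length rfl hM huw le_rfl

end Pool.Agent.SGY.H7
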